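import Mathlib

set_option autoImplicit false

/-!
A linear skew product over the cubing map whose fibre maps have double eigenvalue one half.
-/

namespace Pool.Agent.H288Z.Skew

open Filter Topology Complex

/-- First coefficient. -/
noncomputable def a (l : ℂ) : ℂ := (1 - I * l) / 2

/-- Second coefficient. -/
noncomputable def b (l : ℂ) : ℂ := (1 + I * l) / 2

/-- The nilpotent part. -/
noncomputable def N (l : ℂ) (w : ℂ × ℂ) : ℂ × ℂ :=
  (5 / 2 * (a l * b l * w.1 - a l ^ 2 * w.2), 5 / 2 * (b l ^ 2 * w.1 - a l * b l * w.2))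

/-- The fibre maps. -/
noncomputable def G (z : ℂ × ℂ × ℂ) : ℂ × ℂ := (1 / 2 : ℂ) • (z.2 + N z.1 z.2)

theorem G_diff : Differentiable ℂ G := by
  unfold G N a b
  fun_prop

/-- The fibre map as a continuous linear map. -/
noncomputable def L (l : ℂ) : ℂ × ℂ →L[ℂ] ℂ × ℂ :=
  LinearMap.toContinuousLinearMap
    { toFun := fun w => G (l, w)
      map_add' := fun v w => by ext <;> simp [G, N] <;> ring
      map_smul' := fun c w => by ext <;> simp [G, N] <;> ring }

theorem fderiv_G (l : ℂ) : fderiv ℂ (fun w => G (l, w)) 0 = L l := (L l).fderiv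

theorem eig (l μ : ℂ)
    (h : Module.End.HasEigenvalue (fderiv ℂ (fun w => G (l, w)) 0 : ℂ × ℂ →ₗ[ℂ] ℂ × ℂ) μ) :
    ‖μ‖ < 1 := by
  rw [fderiv_G] at h
  obtain ⟨v, hv⟩ := h.exists_hasEigenvector
  have h1 : G (l, v) = μ • v := hv.apply_eq_smul
  have h2 := congrArg Prod.fst h1
  have h3 := congrArg Prod.snd h1
  simp only [G, N, Prod.fst_add, Prod.snd_add, Prod.smul_fst, Prod.smul_snd, smul_eq_mul] at h2 h3
  have h4 : (2 * μ - 1) ^ 2 * v.1 = 0 := by
    linear_combination (-2 * (2 * μ - 1) - 5 * (a l * b l)) * h2 + 5 * a l ^ 2 * h3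
  have h5 : (2 * μ - 1) ^ 2 * v.2 = 0 := by
    linear_combination (-2 * (2 * μ - 1) + 5 * (a l * b l)) * h3 - 5 * b l ^ 2 * h2
  have h6 : (2 * μ - 1) ^ 2 = 0 := by
    by_contra hne
    exact hv.2 (Prod.ext ((mul_eq_zero.mp h4).resolve_left hne)
      ((mul_eq_zero.mp h5).resolve_left hne))
  have h7 : μ = 1 / 2 := by
    have := pow_eq_zero_iff (two_ne_zero) |>.mp h6
    linear_combination this / 2
  rw [h7]
  norm_num

theorem inv (l : ℂ) : ∃ H : ℂ × ℂ → ℂ × ℂ, Differentiable ℂ H ∧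
    Function.LeftInverse H (fun w => G (l, w)) ∧ Function.RightInverse H fun w => G (l, w) := by
  refine ⟨fun w => (2 : ℂ) • (w - N l w), ?_, fun w => ?_, fun w => ?_⟩
  · unfold N
    fun_prop
  · ext <;> simp [G, N] <;> ring
  · ext <;> simp [G, N] <;> ring

theorem G_zero (l : ℂ) : G (l, 0) = 0 := by
  ext <;> simp [G, N]

/-- The skew product. -/
noncomputable def F (z : ℂ × ℂ × ℂ) : ℂ × ℂ × ℂ := (z.1 ^ 3, G z)

theorem two_step (w : ℂ × ℂ) : (F (F (I, w))).1 = I ∧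
    (F (F (I, w))).2.1 - 2 * (F (F (I, w))).2.2 = -(w.1 - 2 * w.2) := by
  have h1 : I ^ 3 = -I := I_pow_three
  have h2 : a I = 1 := by simp [a]
  have h3 : b I = 0 := by simp [b]
  have h4 : a (-I) = 0 := by simp [a]
  have h5 : b (-I) = 1 := by simp [b]
  refine ⟨?_, ?_⟩
  · simp only [F, h1]
    rw [neg_pow, h1]
    norm_num
  · simp only [F, G, N, h1, h2, h3, h4, h5, Prod.fst_add, Prod.snd_add, Prod.smul_fst,
      Prod.smul_snd, smul_eq_mul]
    ring

theorem iter (w : ℂ × ℂ) (n : ℕ) : (F^[2 * n] (I, w)).1 = I ∧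
    ‖(F^[2 * n] (I, w)).2.1 - 2 * (F^[2 * n] (I, w)).2.2‖ = ‖w.1 - 2 * w.2‖ := by
  induction n with
  | zero => exact ⟨rfl, rfl⟩
  | succ n ih =>
    have h1 : F^[2 * (n + 1)] (I, w) = F (F (I, (F^[2 * n] (I, w)).2)) := by
      rw [show 2 * (n + 1) = 2 * n + 1 + 1 by ring, Function.iterate_succ_apply',
        Function.iterate_succ_apply']
      exact congrArg (fun z => F (F z)) (Prod.ext ih.1 rfl)
    rw [h1, (two_step _).1, (two_step _).2, norm_neg]
    exact ⟨rfl, ih.2⟩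

theorem iter_zero (l : ℂ) (n : ℕ) : (F^[n] (l, 0)).2 = 0 := by
  induction n with
  | zero => rfl
  | succ n ih =>
    rw [Function.iterate_succ_apply']
    show G (F^[n] (l, 0)) = 0
    have h : F^[n] (l, 0) = ((F^[n] (l, 0)).1, 0) := Prod.ext rfl ih
    exact (congrArg G h).trans (G_zero (F^[n] (l, 0)).1)

theorem stable (w : ℂ × ℂ)
    (h : Tendsto (fun n => ‖F^[n] (I, w) - F^[n] (I, 0)‖) atTop (𝓝 0)) : w.1 = 2 * w.2 := by
  have h1 := tendsto_zero_iff_norm_tendsto_zero.mpr h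
  have h2 : Continuous fun z : ℂ × ℂ × ℂ => ‖z.2.1 - 2 * z.2.2‖ := by fun_prop
  have h3 := ((h2.tendsto 0).comp h1).comp
    (tendsto_atTop_mono (f := id) (g := fun n => 2 * n) (fun n => by simp; omega) tendsto_id)
  have h4 : Tendsto (fun _ : ℕ => ‖w.1 - 2 * w.2‖) atTop (𝓝 0) := by
    simp only [Prod.snd_zero, Prod.fst_zero, mul_zero, sub_zero, norm_zero] at h3
    refine h3.congr fun n => ?_
    simp only [Function.comp, Prod.snd_sub, iter_zero, sub_zero]
    exact (iter w n).2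
  have h5 := tendsto_nhds_unique h4 tendsto_const_nhds
  exact sub_eq_zero.mp (norm_eq_zero.mp h5.symm)

theorem no_inj (φ : ℂ × ℂ → ℂ) (hφ : Differentiable ℂ φ) : ¬ Function.Injective φ := by
  intro hinj
  have h1 : AnalyticOnNhd ℂ (fun z : ℂ => φ (z, 0)) Set.univ :=
    (hφ.comp (by fun_prop)).differentiableOn.analyticOnNhd isOpen_univ
  rcases h1.is_constant_or_isOpenMap with ⟨c, hc⟩ | hopen
  · have := hinj ((hc 0).trans (hc 1).symm)
    simp at this
  · obtain ⟨ε, hε, hball⟩ := Metric.isOpen_iff.mp hopen.isOpen_range (φ (0, 0)) ⟨0, rfl⟩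
    have h2 : ∀ z, ε ≤ ‖φ (z, 1) - φ (0, 0)‖ := by
      intro z
      by_contra hlt
      obtain ⟨u, hu⟩ := hball (mem_ball_iff_norm.mpr (not_le.mp hlt))
      have := hinj hu
      simp at this
    have h3 : ∀ z, φ (z, 1) - φ (0, 0) ≠ 0 := fun z h0 => by
      have := h2 z
      rw [h0, norm_zero] at this
      linarith
    have h4 : Differentiable ℂ fun z : ℂ => (φ (z, 1) - φ (0, 0))⁻¹ :=
      ((hφ.comp (by fun_prop)).sub_const _).inv h3
    have h5 := h4.apply_eq_apply_of_bounded (isBounded_iff_forall_norm_le.mpr ⟨ε⁻¹, by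
      rintro _ ⟨z, rfl⟩
      rw [norm_inv]
      exact inv_anti₀ hε (h2 z)⟩) 0 1
    have h6 := hinj (sub_left_injective (inv_injective h5))
    simp at h6

end Pool.Agent.H288Z.Skew
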